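import Pool.Agent.Work.MP_f4b644_ag.MainA

set_option autoImplicit false

namespace Pool.Agent.Work.MP_f4b644_ag.Old.GenericRankDensityOne

/-- For complex I × J × K tensors with 1 ≤ I ≤ J ≤ K and 16 (I+J) (I+J+K)^2 ≤ (IJ)^2, the tensors
of rank at most r are dense exactly when r ≥ ⌈IJK/(I+J+K-2)⌉. -/
theorem result :
    ∀ I J K : ℕ, 1 ≤ I → I ≤ J → J ≤ K → 16 * (I + J) * (I + J + K) ^ 2 ≤ (I * J) ^ 2 →
      ∀ r : ℕ,
        (Dense {T : Fin I → Fin J → Fin K → ℂ |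
            ∃ a : Fin r → Fin I → ℂ, ∃ b : Fin r → Fin J → ℂ, ∃ c : Fin r → Fin K → ℂ,
              T = fun i j k => ∑ l : Fin r, a l i * b l j * c l k}
          ↔ ⌈((I : ℝ) * J * K) / ((I : ℝ) + J + K - 2)⌉₊ ≤ r) := by
  intro I J K hI hIJ hJK h r
  exact Pool.Agent.Work.MP_f4b644_ag.dense_iff_of_span hI (by omega) (by omega)
    (Pool.Agent.Work.MP_f4b644_ag.denseA hI hIJ hJK h) r

end Pool.Agent.Work.MP_f4b644_ag.Old.GenericRankDensityOne
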