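import Pool.Agent.Work.MP_f4b644_ag.Big.Top

set_option autoImplicit false

namespace Pool.Agent.Work.MP_f4b644_ag.Old.GenericRankLargeI

/-- For complex I × J × K tensors in the balanced range I ≤ J ≤ K ≤ (I-1)(J-1) with smallest side
I ≥ 10^18, the tensors of rank at most r are dense exactly when r ≥ ⌈IJK/(I+J+K-2)⌉. -/
theorem result :
    ∀ I J K : ℕ, 10 ^ 18 ≤ I → I ≤ J → J ≤ K → K ≤ (I - 1) * (J - 1) →
      ∀ r : ℕ,
        (Dense {T : Fin I → Fin J → Fin K → ℂ |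
            ∃ a : Fin r → Fin I → ℂ, ∃ b : Fin r → Fin J → ℂ, ∃ c : Fin r → Fin K → ℂ,
              T = fun i j k => ∑ l : Fin r, a l i * b l j * c l k}
          ↔ ⌈((I : ℝ) * J * K) / ((I : ℝ) + J + K - 2)⌉₊ ≤ r) := by
  intro I J K hI hIJ hJK hK r
  have h1 : 1 ≤ I := le_trans (by norm_num) hI
  exact Pool.Agent.Work.MP_f4b644_ag.dense_iff_of_span h1 (by omega) (by omega)
    (Pool.Agent.Work.MP_f4b644_ag.Big.dense_big hI hIJ hJK hK) r

end Pool.Agent.Work.MP_f4b644_ag.Old.GenericRankLargeI
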